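import Pool.Agent.H35.Klarner

set_option autoImplicit false

open Filter

namespace Pool.Agent.Results.MP_75084c_nt.LowerDensityZero

/-- `x` is obtained from `1` by finitely many applications, in any order, of the maps
`x ↦ 2x`, `x ↦ 3x + 2`, `x ↦ 6x + 3`. -/
inductive Generated : ℕ → Prop
  | one : Generated 1
  | two {x : ℕ} : Generated x → Generated (2 * x)
  | three {x : ℕ} : Generated x → Generated (3 * x + 2)
  | six {x : ℕ} : Generated x → Generated (6 * x + 3)

lemma generated_mem_K {x : ℕ} (h : Generated x) : x ∈ Pool.Agent.H35.Klarner.K := by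
  intro T h1 hT
  induction h with
  | one => exact h1
  | two _ ih => exact (hT _ ih).1
  | three _ ih => exact (hT _ ih).2.1
  | six _ ih => exact (hT _ ih).2.2

/-- The number of elements of the set among `1, ..., n`. -/
noncomputable def count (n : ℕ) : ℕ := ({x | Generated x} ∩ Set.Icc 1 n).ncard

lemma count_le (n : ℕ) : count n ≤ n := by
  unfold count
  have h1 : ({x | Generated x} ∩ Set.Icc 1 n) ⊆ Set.Icc 1 n := Set.inter_subset_right
  have h2 := Set.ncard_le_ncard h1 (Set.finite_Icc 1 n)
  have h3 : (Set.Icc 1 n).ncard = n := by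
    rw [Set.ncard_eq_toFinset_card', Set.toFinset_Icc, Nat.card_Icc]
    omega
  omega

lemma count_le_cnt (n : ℕ) :
    count n ≤ Pool.Agent.H35.Klarner.cnt Pool.Agent.H35.Klarner.K (n + 1) := by
  classical
  unfold count Pool.Agent.H35.Klarner.cnt
  rw [← Set.ncard_coe_finset]
  apply Set.ncard_le_ncard _ (Finset.finite_toSet _)
  rintro x ⟨hx1, hx2⟩
  rw [Finset.coe_filter]
  refine ⟨?_, generated_mem_K hx1⟩
  rw [Finset.mem_range]
  have := hx2.2
  omega

/-- The set generated from `1` by `2x`, `3x + 2`, `6x + 3` has lower density zero. -/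
theorem result : Filter.liminf (fun n : ℕ => (count n : ℝ) / n) Filter.atTop = 0 := by
  have hnn : ∀ n : ℕ, 0 ≤ (count n : ℝ) / n := fun n => by positivity
  have hle : ∀ n : ℕ, (count n : ℝ) / n ≤ 1 := by
    intro n
    rcases Nat.eq_zero_or_pos n with rfl | hn
    · simp
    · rw [div_le_one (by exact_mod_cast hn)]
      exact_mod_cast count_le n
  have hbb : IsBoundedUnder (· ≥ ·) atTop (fun n : ℕ => (count n : ℝ) / n) :=
    isBoundedUnder_of ⟨0, hnn⟩
  have hba : IsBoundedUnder (· ≤ ·) atTop (fun n : ℕ => (count n : ℝ) / n) :=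
    isBoundedUnder_of ⟨1, hle⟩
  apply le_antisymm
  · by_contra hcon
    push Not at hcon
    set l := Filter.liminf (fun n : ℕ => (count n : ℝ) / n) atTop with hl
    have hev := eventually_lt_of_lt_liminf (show l / 2 < l by linarith) hbb
    rw [eventually_atTop] at hev
    obtain ⟨N, hN⟩ := hev
    apply Pool.Agent.H35.Klarner.no_pos_density
    refine ⟨l / 2, by linarith, N + 1, fun n hn => ?_⟩
    have h1 := hN n (by omega)
    have hn0 : (0 : ℝ) < n := by
      have : 0 < n := by omega
      exact_mod_cast this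
    rw [lt_div_iff₀ hn0] at h1
    have h2 : (count n : ℝ)
        ≤ Pool.Agent.H35.Klarner.cnt Pool.Agent.H35.Klarner.K (n + 1) := by
      exact_mod_cast count_le_cnt n
    linarith
  · exact le_liminf_of_le hba.isCoboundedUnder_ge (Eventually.of_forall hnn)

end Pool.Agent.Results.MP_75084c_nt.LowerDensityZero
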